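import Pool.Agent.BEN.StmtsA

/-!
# Squad BEN, module TMN: the solution from the approximate solution
-/

namespace Pool.Agent.BEN.H81

open Set Filter Topology MeasureTheory
open scoped InnerProductSpace ENNReal
open Pool.Agent.BE01 Pool.Agent.BEF

set_option autoImplicit false

noncomputable section

lemma sq_le_two {H : Type} [NormedAddCommGroup H] (a b : H) :
    ‖a‖ ^ 2 ≤ 2 * ‖b‖ ^ 2 + 2 * ‖a - b‖ ^ 2 := by
  have h1 : ‖a‖ ≤ ‖b‖ + ‖a - b‖ := by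
    have := norm_add_le b (a - b)
    simpa using this
  have h2 := norm_nonneg a
  nlinarith [sq_nonneg (‖b‖ - ‖a - b‖), norm_nonneg b, norm_nonneg (a - b)]

/-- The component in `X` of a power. -/
lemma x0_pj {X H J : Type} [NormedCommRing X] [NormedAlgebra ℝ X] [NormedAddCommGroup H]
    [InnerProductSpace ℝ H] [NormedAddCommGroup J] [NormedSpace ℝ J] {W : Wx X H} {s : ℕ}
    {A : Jax J} {cj : ℝ} (L : Jlk W s A cj) (n : ℕ) (y : J) :
    L.x0 (pj A n y) = (L.x0 y) ^ (n + 1) := by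
  induction n with
  | zero => simp [pj]
  | succ n ih =>
    have h1 : pj A (n + 1) y = A.mul y (pj A n y) := rfl
    rw [h1, L.x0_mul, ih, ← pow_succ']

/-- TMN. -/
theorem tmn (lix : LixStmt) (nlj : NljStmt) : TmnStmt := by
  intro X H J _ _ _ _ _ _ _ _ W s p A cj C0 K L a0 k t1 b N1 c C w r g hK hKp hs hp ha0 hC0 hcj hk
    hsm hT
  have hp' : (1 : ℝ) ≤ (p : ℝ) := by exact_mod_cast hp
  have ht1 : 1 ≤ t1 := hT.t1_le
  have hc : 0 < c := hT.c_pos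
  have hk1 : 1 < k := by linarith
  -- nonnegativity of `b` and `N1`
  have hgt : t1 + 1 > t1 := by linarith
  have hb0 : 0 ≤ b := by
    have h1 := hT.w_le 0 (Nat.zero_le s) (t1 + 1) hgt
    have h2 : 0 < (t1 + 1) ^ (-(1 / (2 * (p : ℝ)))) := Real.rpow_pos_of_pos (by linarith) _
    have h3 := le_trans (norm_nonneg _) h1
    by_contra hcon
    push Not at hcon
    nlinarith
  have hN10 : 0 ≤ N1 := by
    have h1 := hT.r_le 0 (Nat.zero_le s) (t1 + 1) hgt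
    have h2 : 0 < (t1 + 1) ^ (-k) := Real.rpow_pos_of_pos (by linarith) _
    have h3 := le_trans (norm_nonneg _) h1
    by_contra hcon
    push Not at hcon
    nlinarith
  -- the jets
  have cuw : A.Cu t1 (fun t => L.jt (fun j => w j t)) := L.cu_jt t1 w hT.w_der hT.w_cont
  have cur : A.Cu t1 (fun t => L.jt (fun j => r j t)) := L.cu_jt t1 r hT.r_der hT.r_cont
  have hwb : ∀ t > t1, ‖L.jt (fun j => w j t)‖ ≤ (cj * b) * t ^ (-(1 / (2 * (p : ℝ)))) := by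
    intro t ht
    have tpos : 0 < t := by linarith
    have h2 : 0 < t ^ (-(1 / (2 * (p : ℝ)))) := Real.rpow_pos_of_pos tpos _
    have h1 := L.jt_le (fun j => w j t) (b * t ^ (-(1 / (2 * (p : ℝ)))))
      (mul_nonneg hb0 h2.le) (fun j hj => hT.w_le j hj t ht)
    rw [mul_assoc]
    exact h1
  have hrb : ∀ t > t1, ‖L.jt (fun j => r j t)‖ ≤ (cj * N1) * t ^ (-k) := by
    intro t ht
    have tpos : 0 < t := by linarith
    have h2 : 0 < t ^ (-k) := Real.rpow_pos_of_pos tpos _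
    have h1 := L.jt_le (fun j => r j t) (N1 * t ^ (-k))
      (mul_nonneg hN10 h2.le) (fun j hj => hT.r_le j hj t ht)
    rw [mul_assoc]
    exact h1
  have hsm' : a0 * (2 * (2 * p + 1) * C0 * A.nmul ^ (2 * p)) * (cj * b) ^ (2 * p) < k - 1 := by
    rw [mul_pow]
    refine lt_of_eq_of_lt ?_ hsm
    ring
  obtain ⟨t0, ht01, N, f, cuf, hfN, hf⟩ := nlj J A C0 K p a0 k t1 (cj * b) (cj * N1)
    (fun t => L.jt (fun j => w j t)) (fun t => L.jt (fun j => r j t)) hK hC0 hp ha0 hk ht1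
    (mul_nonneg hcj hb0) cuw cur hwb hrb hsm'
  have ht0 : 1 ≤ t0 := le_trans ht1 ht01
  have ht0' : 0 < t0 := by linarith
  have hN0 : 0 ≤ N := by
    have h1 := hfN (t0 + 1) (by linarith)
    have h2 : 0 < (t0 + 1) ^ (-k) := Real.rpow_pos_of_pos (by linarith) _
    have h3 := le_trans (norm_nonneg _) h1
    by_contra hcon
    push Not at hcon
    nlinarith
  -- the curve `K f`
  obtain ⟨cuK, hKb⟩ := hK.cu t0 k N f ht0 hk1 cuf hfN
  have contK : ContinuousOn (K f) (Ioi t0) := A.cont t0 _ cuK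
  have contf : ContinuousOn f (Ioi t0) := A.cont t0 _ cuf
  have hKpr : ∀ j ≤ s, ∀ t > t0, L.pr j (K f t) = cI W.C (fun r => L.pr j (f r)) t :=
    hKp t0 k N f ht0 hk1 cuf hfN
  obtain ⟨Q, hQ⟩ : ∃ Q : ℝ, Q = ‖L.pr 0‖ + ‖L.pr 1‖ + ‖L.pr 2‖ := ⟨_, rfl⟩
  have hQ0 : ‖L.pr 0‖ ≤ Q := by
    have := norm_nonneg (L.pr 1)
    have := norm_nonneg (L.pr 2)
    linarith
  have hQ1 : ‖L.pr 1‖ ≤ Q := by
    have := norm_nonneg (L.pr 0)
    have := norm_nonneg (L.pr 2)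
    linarith
  have hQ2 : ‖L.pr 2‖ ≤ Q := by
    have := norm_nonneg (L.pr 0)
    have := norm_nonneg (L.pr 1)
    linarith
  have hQn : 0 ≤ Q := le_trans (norm_nonneg _) hQ0
  have prb : ∀ j : ℕ, ‖L.pr j‖ ≤ Q → ∀ t > t0, ‖L.pr j (f t)‖ ≤ (Q * N) * t ^ (-k) := by
    intro j hj t ht
    calc ‖L.pr j (f t)‖ ≤ ‖L.pr j‖ * ‖f t‖ := (L.pr j).le_opNorm _
      _ ≤ Q * (N * t ^ (-k)) := mul_le_mul hj (hfN t ht) (norm_nonneg _) hQn
      _ = (Q * N) * t ^ (-k) := by ring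
  have s0 : 0 < s := by omega
  have s1 : 1 < s := by omega
  have d0 : ∀ t > t0, HasDerivAt (fun r => L.pr 0 (f r)) (L.pr 1 (f t)) t :=
    L.der t0 f cuf 0 s0
  have d1 : ∀ t > t0, HasDerivAt (fun r => L.pr 1 (f r)) (L.pr 2 (f t)) t :=
    L.der t0 f cuf 1 s1
  have c2 : ContinuousOn (fun r => L.pr 2 (f r)) (Ioi t0) :=
    (L.pr 2).continuous.comp_continuousOn contf
  have c0 : ContinuousOn (fun r => L.pr 0 (f r)) (Ioi t0) :=
    (L.pr 0).continuous.comp_continuousOn contf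
  have c1 : ContinuousOn (fun r => L.pr 1 (f r)) (Ioi t0) :=
    (L.pr 1).continuous.comp_continuousOn contf
  have LX := lix H W.S W.R W.C W.Sn W.prp (fun r => L.pr 0 (f r)) (fun r => L.pr 1 (f r))
    t0 k (Q * N) ht0 hk1 d0 c1 (prb 0 hQ0) (prb 1 hQ1)
  choose! y hy using hT.w_SX
  -- the constant
  obtain ⟨G, hG⟩ : ∃ G : ℝ, G = (1 + ‖W.R‖) * (Q * (C0 * (1 / (k - 1) + 1 / t0) * N) + Q * N) :=
    ⟨_, rfl⟩
  have hD0 : 0 ≤ C0 * (1 / (k - 1) + 1 / t0) * N := by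
    have h1 : 0 < 1 / (k - 1) := by
      apply one_div_pos.mpr
      linarith
    have h2 : 0 < 1 / t0 := one_div_pos.mpr ht0'
    positivity
  have hE0 : 0 ≤ Q * (C0 * (1 / (k - 1) + 1 / t0) * N) := mul_nonneg hQn hD0
  have hE1 : 0 ≤ Q * N := mul_nonneg hQn hN0
  obtain ⟨t0', h1', h2'⟩ : ∃ t0' : ℝ, t0 ≤ t0' ∧ 8 * G ^ 2 / c ≤ t0' :=
    ⟨max t0 (8 * G ^ 2 / c), le_max_left _ _, le_max_right _ _⟩
  refine ⟨t0', c / 4, 2 * C + 4 * G ^ 2,
    fun t => W.S (W.e (g t)) + - W.R (cI W.Sn (fun r => L.pr 0 (f r)) t),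
    fun t => w 0 t + L.x0 (K f t),
    fun t => W.e (y t) - (L.pr 1 (f t) + cI W.C (fun r => L.pr 2 (f r)) t),
    fun t => W.e (w 1 t) + L.pr 1 (K f t),
    fun t => W.e (g t) - (L.pr 1 (K f t) + L.pr 0 (f t)), by linarith, by positivity, ?_, ?_, ?_⟩
  · refine ContinuousOn.add ?_ ?_
    · intro t ht
      have ht' : t > t1 := lt_of_le_of_lt (le_trans ht01 h1') ht
      exact ((W.e.hasFDerivAt.comp_hasDerivAt t (hT.w_der 1 s1 t ht')).continuousAt).continuousWithinAt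
    · exact ((L.pr 1).continuous.comp_continuousOn contK).mono
        fun t ht => lt_of_le_of_lt h1' ht
  · refine ContinuousOn.sub ?_ ?_
    · exact (W.e.continuous.comp_continuousOn hT.g_cont).mono
        fun t ht => lt_of_le_of_lt (le_trans ht01 h1') ht
    · exact (((L.pr 1).continuous.comp_continuousOn contK).add c0).mono
        fun t ht => lt_of_le_of_lt h1' ht
  intro t ht'
  have ht : t > t0 := lt_of_le_of_lt h1' ht'
  have htt1 : t > t1 := lt_of_le_of_lt ht01 ht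
  have ex : ∀ s > t0, W.e (w 0 s + L.x0 (K f s)) =
      W.e (w 0 s) + cI W.C (fun r => L.pr 0 (f r)) s := by
    intro s hs
    rw [map_add, L.e_x0, hKpr 0 (Nat.zero_le _) s hs]
  obtain ⟨a1, a2, a3, a4, a5'⟩ := LX t ht
  have a5 : cI W.C (fun r => L.pr 0 (f r)) t =
      - W.S (L.pr 1 (f t) + cI W.C (fun r => L.pr 2 (f r)) t) :=
    a5' (fun r => L.pr 2 (f r)) d1 c2 (prb 2 hQ2)
  have e1 : L.pr 1 (K f t) = cI W.C (fun r => L.pr 1 (f r)) t := hKpr 1 (by omega) t ht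
  have e0 : L.pr 0 (K f t) = cI W.C (fun r => L.pr 0 (f r)) t := hKpr 0 (by omega) t ht
  refine ⟨?_, ?_, ?_, ?_, ?_, ?_⟩
  · show HasDerivAt (fun t => W.S (W.e (g t)) + - W.R (cI W.Sn (fun r => L.pr 0 (f r)) t))
      (W.e (w 0 t + L.x0 (K f t))) t
    rw [ex t ht]
    have h1 : HasDerivAt (fun r => W.e (W.SX (g r))) (W.e (w 0 t)) t :=
      W.e.hasFDerivAt.comp_hasDerivAt t (hT.g_der t htt1)
    have h2 : (fun r => W.e (W.SX (g r))) = fun r => W.S (W.e (g r)) := by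
      funext r
      exact W.e_SX _
    rw [h2] at h1
    exact h1.add a1
  · show HasDerivAt (fun s => W.e (w 0 s + L.x0 (K f s))) (W.e (w 1 t) + L.pr 1 (K f t)) t
    rw [e1]
    have h1 : HasDerivAt (fun s => W.e (w 0 s) + cI W.C (fun r => L.pr 0 (f r)) s)
        (W.e (w 1 t) + cI W.C (fun r => L.pr 1 (f r)) t) t :=
      (W.e.hasFDerivAt.comp_hasDerivAt t (hT.w_der 0 s0 t htt1)).add a2
    refine h1.congr_of_eventuallyEq ?_
    filter_upwards [Ioi_mem_nhds ht] with s hs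
    exact ex s hs
  · show W.e (w 0 t + L.x0 (K f t)) =
      W.S (W.e (y t) - (L.pr 1 (f t) + cI W.C (fun r => L.pr 2 (f r)) t))
    rw [ex t ht, a5, map_sub, ← W.e_SX, ← hy t htt1, sub_eq_add_neg]
  · show W.S (W.e (g t)) + - W.R (cI W.Sn (fun r => L.pr 0 (f r)) t) =
      W.S (W.e (g t) - (L.pr 1 (K f t) + L.pr 0 (f t)))
    rw [a3, map_sub, e1, sub_eq_add_neg]
  · show W.e (w 1 t) + L.pr 1 (K f t) + (W.e (g t) - (L.pr 1 (K f t) + L.pr 0 (f t))) +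
      a0 • W.e ((w 0 t + L.x0 (K f t)) ^ (2 * p + 1)) = 0
    have h1 : L.x0 (f t) = a0 • ((w 0 t + L.x0 (K f t)) ^ (2 * p + 1) - (w 0 t) ^ (2 * p + 1)) +
        (w 1 t + g t + a0 • (w 0 t ^ (2 * p + 1))) := by
      have h2 : L.x0 (f t) = L.x0 (a0 • (pj A (2 * p) (L.jt (fun j => w j t) + K f t) -
        pj A (2 * p) (L.jt (fun j => w j t))) + L.jt (fun j => r j t)) := by
        rw [← hf t ht]
      rw [h2, map_add, map_smul, map_sub, x0_pj, x0_pj, map_add, L.x0_jt, L.x0_jt,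
        hT.res t htt1]
    have h3 : L.pr 0 (f t) = W.e (L.x0 (f t)) := (L.e_x0 _).symm
    rw [h3, h1]
    simp only [map_add, map_sub, map_smul, smul_sub]
    abel
  -- the energy
  have hRS : ⟪W.e (g t) - (L.pr 1 (K f t) + L.pr 0 (f t)),
      W.S (W.e (g t) - (L.pr 1 (K f t) + L.pr 0 (f t)))⟫_ℝ =
      ‖W.R (W.e (g t)) - W.R (L.pr 1 (K f t) + L.pr 0 (f t))‖ ^ 2 := by
    rw [← W.prp.RR, ← W.prp.R_symm, map_sub, real_inner_self_eq_norm_sq]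
  have hex : W.e (w 0 t + L.x0 (K f t)) = W.e (w 0 t) + L.pr 0 (K f t) := by
    rw [map_add, L.e_x0]
  have t1' : 1 < t := lt_of_le_of_lt ht0 ht
  have tpos : 0 < t := by linarith
  have hTp : 0 < t ^ (1 - k) := Real.rpow_pos_of_pos tpos _
  have hTk : t ^ (-k) ≤ t ^ (1 - k) := Real.rpow_le_rpow_of_exponent_le t1'.le (by linarith)
  have kb := hKb t ht
  have bK : ∀ j : ℕ, ‖L.pr j‖ ≤ Q →
      ‖L.pr j (K f t)‖ ≤ Q * (C0 * (1 / (k - 1) + 1 / t0) * N) * t ^ (1 - k) := by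
    intro j hj
    calc ‖L.pr j (K f t)‖ ≤ ‖L.pr j‖ * ‖K f t‖ := (L.pr j).le_opNorm _
      _ ≤ Q * (C0 * (1 / (k - 1) + 1 / t0) * N * t ^ (1 - k)) :=
        mul_le_mul hj kb (norm_nonneg _) hQn
      _ = Q * (C0 * (1 / (k - 1) + 1 / t0) * N) * t ^ (1 - k) := by ring
  have bf : ‖L.pr 0 (f t)‖ ≤ Q * N * t ^ (1 - k) :=
    le_trans (prb 0 hQ0 t ht) (mul_le_mul_of_nonneg_left hTk hE1)
  have hR0 := norm_nonneg W.R
  have b1 : ‖L.pr 0 (K f t)‖ ≤ G * t ^ (1 - k) := by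
    refine le_trans (bK 0 hQ0) (mul_le_mul_of_nonneg_right ?_ hTp.le)
    rw [hG]
    nlinarith [mul_nonneg hR0 hE0, mul_nonneg hR0 hE1]
  have b2 : ‖W.R (L.pr 1 (K f t) + L.pr 0 (f t))‖ ≤ G * t ^ (1 - k) := by
    calc ‖W.R (L.pr 1 (K f t) + L.pr 0 (f t))‖
        ≤ ‖W.R‖ * ‖L.pr 1 (K f t) + L.pr 0 (f t)‖ := W.R.le_opNorm _
      _ ≤ ‖W.R‖ * ((Q * (C0 * (1 / (k - 1) + 1 / t0) * N) + Q * N) * t ^ (1 - k)) := by
        refine mul_le_mul_of_nonneg_left (le_trans (norm_add_le _ _) ?_) hR0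
        rw [add_mul]
        exact add_le_add (bK 1 hQ1) bf
      _ ≤ G * t ^ (1 - k) := by
        rw [← mul_assoc]
        refine mul_le_mul_of_nonneg_right ?_ hTp.le
        rw [hG]
        nlinarith [add_nonneg hE0 hE1]
  have hpow : (G * t ^ (1 - k)) ^ 2 ≤ G ^ 2 * t⁻¹ * t ^ (-(1 / (p : ℝ))) := by
    rw [mul_pow, mul_assoc]
    refine mul_le_mul_of_nonneg_left ?_ (sq_nonneg _)
    rw [← Real.rpow_neg_one, ← Real.rpow_add tpos, ← Real.rpow_natCast, ← Real.rpow_mul tpos.le]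
    refine Real.rpow_le_rpow_of_exponent_le t1'.le ?_
    have h5 : 1 / (p : ℝ) ≤ 1 := by
      rw [div_le_one (by linarith)]
      exact hp'
    push_cast
    nlinarith
  have q1 : ‖L.pr 0 (K f t)‖ ^ 2 ≤ G ^ 2 * t⁻¹ * t ^ (-(1 / (p : ℝ))) :=
    le_trans (pow_le_pow_left₀ (norm_nonneg _) b1 2) hpow
  have q2 : ‖W.R (L.pr 1 (K f t) + L.pr 0 (f t))‖ ^ 2 ≤ G ^ 2 * t⁻¹ * t ^ (-(1 / (p : ℝ))) :=
    le_trans (pow_le_pow_left₀ (norm_nonneg _) b2 2) hpow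
  have hTT : 0 < t ^ (-(1 / (p : ℝ))) := Real.rpow_pos_of_pos tpos _
  obtain ⟨f1, f2⟩ := hT.en t htt1
  have u1 := sq_le_two (W.e (w 0 t) + L.pr 0 (K f t)) (W.e (w 0 t))
  have u2 := sq_le_two (W.R (W.e (g t)) - W.R (L.pr 1 (K f t) + L.pr 0 (f t))) (W.R (W.e (g t)))
  have u3 := sq_le_two (W.e (w 0 t)) (W.e (w 0 t) + L.pr 0 (K f t))
  have u4 := sq_le_two (W.R (W.e (g t))) (W.R (W.e (g t)) - W.R (L.pr 1 (K f t) + L.pr 0 (f t)))
  have v1 : ‖W.e (w 0 t) + L.pr 0 (K f t) - W.e (w 0 t)‖ = ‖L.pr 0 (K f t)‖ := by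
    rw [add_sub_cancel_left]
  have v2 : ‖W.R (W.e (g t)) - W.R (L.pr 1 (K f t) + L.pr 0 (f t)) - W.R (W.e (g t))‖ =
      ‖W.R (L.pr 1 (K f t) + L.pr 0 (f t))‖ := by
    rw [sub_sub_cancel_left, norm_neg]
  have v3 : ‖W.e (w 0 t) - (W.e (w 0 t) + L.pr 0 (K f t))‖ = ‖L.pr 0 (K f t)‖ := by
    rw [sub_add_cancel_left, norm_neg]
  have v4 : ‖W.R (W.e (g t)) - (W.R (W.e (g t)) - W.R (L.pr 1 (K f t) + L.pr 0 (f t)))‖ =
      ‖W.R (L.pr 1 (K f t) + L.pr 0 (f t))‖ := by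
    rw [sub_sub_cancel]
  rw [v1] at u1
  rw [v2] at u2
  rw [v3] at u3
  rw [v4] at u4
  refine ⟨?_, ?_⟩
  · show c / 4 * t ^ (-(1 / (p : ℝ))) ≤ ‖W.e (w 0 t + L.x0 (K f t))‖ ^ 2 +
      ⟪W.e (g t) - (L.pr 1 (K f t) + L.pr 0 (f t)),
        W.S (W.e (g t) - (L.pr 1 (K f t) + L.pr 0 (f t)))⟫_ℝ
    rw [hRS, hex]
    have h3 : 2 * (G ^ 2 * t⁻¹) ≤ c / 4 := by
      have h4 : 8 * G ^ 2 / c ≤ t := le_trans h2' (le_of_lt ht')
      rw [div_le_iff₀ hc] at h4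
      rw [← mul_assoc, ← div_eq_mul_inv, div_le_iff₀ tpos]
      nlinarith
    nlinarith [mul_le_mul_of_nonneg_right h3 hTT.le]
  · show ‖W.e (w 0 t + L.x0 (K f t))‖ ^ 2 +
      ⟪W.e (g t) - (L.pr 1 (K f t) + L.pr 0 (f t)),
        W.S (W.e (g t) - (L.pr 1 (K f t) + L.pr 0 (f t)))⟫_ℝ ≤
      (2 * C + 4 * G ^ 2) * t ^ (-(1 / (p : ℝ)))
    rw [hRS, hex]
    have h3 : G ^ 2 * t⁻¹ ≤ G ^ 2 := by
      have : t⁻¹ ≤ 1 := inv_le_one_of_one_le₀ t1'.le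
      nlinarith [sq_nonneg G]
    nlinarith [mul_le_mul_of_nonneg_right h3 hTT.le]

end

end Pool.Agent.BEN.H81
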